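import Pool.Agent.H389R2.NS.Pair1

/-!
Project PN (helper931), subtask 8249 (MK), by helper832: the Minkowski inequality in two layers.
-/

set_option autoImplicit false

namespace Pool.Agent.N832.PN.MK

open H974 H12S H389NS Finset

variable {E : Type*} [DecidableEq E]

theorem E2_sum {ι : Type*} (ρ : E → ℝ) (S : Finset E) (s : Finset ι)
    (h : ι → Finset E → Finset E → ℝ) :
    E2 ρ S (fun F F' => ∑ i ∈ s, h i F F') = ∑ i ∈ s, E2 ρ S (h i) := by
  simp only [A6_E2]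
  have h1 : ∀ F ∈ S.powerset, ∑ F' ∈ S.powerset,
      (∏ e ∈ S, A6_ker (ρ e) (e ∈ F) (e ∈ F')) * ∑ i ∈ s, h i F F' =
      ∑ i ∈ s, ∑ F' ∈ S.powerset, (∏ e ∈ S, A6_ker (ρ e) (e ∈ F) (e ∈ F')) * h i F F' := by
    intro F _
    rw [Finset.sum_comm]
    refine Finset.sum_congr rfl fun F' _ => ?_
    rw [Finset.mul_sum]
  rw [Finset.sum_congr rfl h1, Finset.sum_comm]

theorem E2_cmul (ρ : E → ℝ) (S : Finset E) (c : ℝ) (h : Finset E → Finset E → ℝ) :
    E2 ρ S (fun F F' => c * h F F') = c * E2 ρ S h := by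
  simp only [A6_E2]
  rw [Finset.mul_sum]
  refine Finset.sum_congr rfl fun F _ => ?_
  rw [Finset.mul_sum]
  refine Finset.sum_congr rfl fun F' _ => ?_
  ring

/-- Cauchy-Schwarz -/
theorem P2_CS {ρ : E → ℝ} {S : Finset E} (hρ : ∀ e ∈ S, 0 ≤ ρ e ∧ ρ e ≤ 1)
    (A B : Finset E → Prop) :
    P2 ρ S A B ≤ Real.sqrt (P2 ρ S A A) * Real.sqrt (P2 ρ S B B) := by
  unfold P2
  rw [E2_wal, E2_wal, E2_wal]
  have h0 : ∀ T ∈ S.powerset, 0 ≤ ∏ e ∈ T, ρ e := fun T hT =>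
    Finset.prod_nonneg (fun e he => (hρ e (Finset.mem_powerset.mp hT he)).1)
  have h1 := Real.sum_mul_le_sqrt_mul_sqrt S.powerset
    (fun T => wal S (fun F => ind (A F)) T * Real.sqrt (∏ e ∈ T, ρ e))
    (fun T => wal S (fun F => ind (B F)) T * Real.sqrt (∏ e ∈ T, ρ e))
  have e1 : ∀ T ∈ S.powerset, ∀ a b : ℝ,
      a * Real.sqrt (∏ e ∈ T, ρ e) * (b * Real.sqrt (∏ e ∈ T, ρ e)) = a * b * ∏ e ∈ T, ρ e := by
    intro T hT a b
    have := Real.mul_self_sqrt (h0 T hT)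
    calc a * Real.sqrt (∏ e ∈ T, ρ e) * (b * Real.sqrt (∏ e ∈ T, ρ e))
        = a * b * (Real.sqrt (∏ e ∈ T, ρ e) * Real.sqrt (∏ e ∈ T, ρ e)) := by ring
      _ = _ := by rw [this]
  rw [Finset.sum_congr rfl fun T hT => e1 T hT _ _,
    Finset.sum_congr rfl fun T hT => (by rw [sq, e1 T hT] :
      (wal S (fun F => ind (A F)) T * Real.sqrt (∏ e ∈ T, ρ e)) ^ 2 =
        wal S (fun F => ind (A F)) T * wal S (fun F => ind (A F)) T * ∏ e ∈ T, ρ e),
    Finset.sum_congr rfl fun T hT => (by rw [sq, e1 T hT] :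
      (wal S (fun F => ind (B F)) T * Real.sqrt (∏ e ∈ T, ρ e)) ^ 2 =
        wal S (fun F => ind (B F)) T * wal S (fun F => ind (B F)) T * ∏ e ∈ T, ρ e)] at h1
  exact h1

theorem core {ρ : E → ℝ} {S : Finset E} (hρ : ∀ e ∈ S, 0 ≤ ρ e ∧ ρ e ≤ 1)
    (K : ℕ) (a : ℕ → ℝ) (A : ℕ → Finset E → Prop) (h : Finset E → ℝ) (ha : ∀ k, 0 ≤ a k)
    (hh : ∀ F, F ⊆ S → |h F| ≤ ∑ k ∈ Finset.range (K + 1), a k * ind (A k F)) :
    E2 ρ S (fun F F' => h F * h F') ≤
      (∑ k ∈ Finset.range (K + 1), a k * Real.sqrt (P2 ρ S (A k) (A k))) ^ 2 := by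
  have hn : ∀ F, 0 ≤ ∑ k ∈ Finset.range (K + 1), a k * ind (A k F) := fun F =>
    Finset.sum_nonneg fun k _ => mul_nonneg (ha k) (ind_nonneg _)
  have h1 : E2 ρ S (fun F F' => h F * h F') ≤
      E2 ρ S (fun F F' => (∑ k ∈ Finset.range (K + 1), a k * ind (A k F)) *
        ∑ l ∈ Finset.range (K + 1), a l * ind (A l F')) := by
    refine E2_mono hρ fun F F' hF hF' => ?_
    calc h F * h F' ≤ |h F * h F'| := le_abs_self _
      _ = |h F| * |h F'| := abs_mul _ _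
      _ ≤ _ := mul_le_mul (hh F hF) (hh F' hF') (abs_nonneg _) (hn F)
  refine h1.trans ?_
  have h2 : E2 ρ S (fun F F' => (∑ k ∈ Finset.range (K + 1), a k * ind (A k F)) *
        ∑ l ∈ Finset.range (K + 1), a l * ind (A l F')) =
      ∑ k ∈ Finset.range (K + 1), ∑ l ∈ Finset.range (K + 1), (a k * a l) * P2 ρ S (A k) (A l) := by
    have e : (fun F F' : Finset E => (∑ k ∈ Finset.range (K + 1), a k * ind (A k F)) *
        ∑ l ∈ Finset.range (K + 1), a l * ind (A l F')) =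
        fun F F' => ∑ k ∈ Finset.range (K + 1), ∑ l ∈ Finset.range (K + 1),
          (a k * a l) * (ind (A k F) * ind (A l F')) := by
      funext F F'
      rw [Finset.sum_mul_sum]
      refine Finset.sum_congr rfl fun k _ => Finset.sum_congr rfl fun l _ => ?_
      ring
    rw [e, E2_sum]
    refine Finset.sum_congr rfl fun k _ => ?_
    rw [E2_sum]
    refine Finset.sum_congr rfl fun l _ => ?_
    rw [E2_cmul]
    rfl
  rw [h2, sq, Finset.sum_mul_sum]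
  refine Finset.sum_le_sum fun k _ => Finset.sum_le_sum fun l _ => ?_
  calc (a k * a l) * P2 ρ S (A k) (A l)
      ≤ (a k * a l) * (Real.sqrt (P2 ρ S (A k) (A k)) * Real.sqrt (P2 ρ S (A l) (A l))) :=
        mul_le_mul_of_nonneg_left (P2_CS hρ _ _) (mul_nonneg (ha k) (ha l))
    _ = _ := by ring

end Pool.Agent.N832.PN.MK
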