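import Pool.Agent.N931.PN.Stm2
import Pool.Agent.N832.PN.MKC

/-!
Project PN (helper931), subtask 8249 (MK), by helper832: the Minkowski inequality in two layers.
-/

set_option autoImplicit false

namespace Pool.Agent.N832.PN.MK

theorem main : Pool.Agent.N931.PN.S_MK := by
  intro ρ S hρ K a A h ha hh
  exact core hρ K a A h ha hh

end Pool.Agent.N832.PN.MK
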